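import Mathlib
import Pool.Agent.R377.ExpPairMain

/-!
# A necessary condition for exponent pairs
-/

set_option autoImplicit false

namespace Pool.Agent.Results.MP_493793_nt.NecessaryCondition

/-- `f` is admissible at scale `N` with parameter `F ≥ N`, for the constants `c`, `C`: it is smooth on
`[N, 2N]` and all its derivatives `f^(j)`, `j ≥ 0`, satisfy `c_j F / N^j ≤ |f^(j)| ≤ C_j F / N^j`. -/
def Admissible (c C : ℕ → ℝ) (N F : ℝ) (f : ℝ → ℝ) : Prop :=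
  2 ≤ N ∧ N ≤ F ∧ ContDiffOn ℝ (⊤ : ℕ∞) f (Set.Icc N (2 * N)) ∧
    ∀ j : ℕ, ∀ x ∈ Set.Icc N (2 * N),
      c j * F / N ^ j ≤ |iteratedDerivWithin j f (Set.Icc N (2 * N)) x| ∧
      |iteratedDerivWithin j f (Set.Icc N (2 * N)) x| ≤ C j * F / N ^ j

/-- `(p, q)` is an exponent pair: `0 ≤ p, q ≤ 1/2`, and for every `ε > 0` and every choice of the positive
constants `c_j, C_j` there is a constant `K` with
`|∑_{N ≤ n ≤ N'} e(f(n))| ≤ K F^p N^(q - p + 1/2) F^ε` for all `N ≤ N' ≤ 2N` and all admissible `f`. -/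
def IsExponentPair (p q : ℝ) : Prop :=
  0 ≤ p ∧ p ≤ 1 / 2 ∧ 0 ≤ q ∧ q ≤ 1 / 2 ∧
    ∀ ε : ℝ, 0 < ε → ∀ c C : ℕ → ℝ, (∀ j, 0 < c j) → (∀ j, 0 < C j) →
      ∃ K : ℝ, ∀ N N' F : ℝ, ∀ f : ℝ → ℝ, Admissible c C N F f → N ≤ N' → N' ≤ 2 * N →
        ‖∑ n ∈ Finset.Icc ⌈N⌉₊ ⌊N'⌋₊,
            Complex.exp (2 * (Real.pi : ℂ) * Complex.I * ((f (n : ℝ) : ℝ) : ℂ))‖ ≤
          K * F ^ p * N ^ (q - p + 1 / 2) * F ^ ε

/-- Every exponent pair `(p, q)` satisfies `p + 2 q ≥ 1/2`; in particular `(0, 0)` is not an exponent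
pair. -/
theorem result (p q : ℝ) (h : IsExponentPair p q) : 1 / 2 ≤ p + 2 * q := by
  obtain ⟨hp0, hp1, hq0, hq1, h⟩ := h
  by_contra hcon
  rw [not_le] at hcon
  set ε : ℝ := (1 / 2 - p - 2 * q) / 6 with hε
  have hε0 : 0 < ε := by rw [hε]; linarith
  obtain ⟨K, hK⟩ := h ε hε0 (fun j => Pool.Agent.R377.EP.co j * (1 / 2) ^ j)
    (fun j => Pool.Agent.R377.EP.co j * 4)
    (fun j => mul_pos (Pool.Agent.R377.EP.co_pos j) (by positivity))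
    (fun j => mul_pos (Pool.Agent.R377.EP.co_pos j) (by norm_num))
  have hKabs := abs_nonneg K
  -- a large parameter
  have ht : Filter.Tendsto (fun k : ℕ => ((k : ℝ)) ^ (3 * ε)) Filter.atTop Filter.atTop :=
    (tendsto_rpow_atTop (by positivity)).comp tendsto_natCast_atTop_atTop
  obtain ⟨k, hk1, hk2⟩ := ((ht.eventually_gt_atTop (162 * |K|)).and
    (Filter.eventually_ge_atTop 1000)).exists
  have hk10 : 10 ≤ k := by omega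
  have hkR : (1000 : ℝ) ≤ k := by exact_mod_cast hk2
  have hk0 : (0 : ℝ) < k := by linarith
  obtain ⟨h2, h3, h4, h5⟩ := Pool.Agent.R377.EP.range_ok k hk10
  set N : ℝ := ((Pool.Agent.R377.EP.A (3 * k) : ℕ) : ℝ) with hN
  have hN0 : 0 < N := by linarith
  have hN1 : 1 ≤ N := by linarith
  have hNF : N ≤ N ^ (3 / 2 : ℝ) := by
    calc N = N ^ (1 : ℝ) := (Real.rpow_one N).symm
      _ ≤ _ := Real.rpow_le_rpow_of_exponent_le hN1 (by norm_num)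
  have hmain := hK N ((Pool.Agent.R377.EP.A (4 * k) - 1 : ℕ) : ℝ) (N ^ (3 / 2 : ℝ))
    Pool.Agent.R377.EP.ff ⟨h2, hNF,
    (fun x hx => (Pool.Agent.R377.EP.ff_contDiffAt (lt_of_lt_of_le hN0 hx.1) _).contDiffWithinAt),
    (fun j x hx => Pool.Agent.R377.EP.ff_adm hN0 j x hx)⟩ h3 h4
  have hlow := Pool.Agent.R377.EP.lower' k hk10
  have hb : (N ^ (3 / 2 : ℝ)) ^ p * N ^ (q - p + 1 / 2) * (N ^ (3 / 2 : ℝ)) ^ ε ≤
      81 * ((k : ℝ) ^ (3 / 2 : ℝ) / (k : ℝ) ^ (3 * ε)) := by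
    rw [← Real.rpow_mul hN0.le, ← Real.rpow_mul hN0.le, ← Real.rpow_add hN0, ← Real.rpow_add hN0]
    have hexp : 3 / 2 * p + (q - p + 1 / 2) + 3 / 2 * ε = 3 / 4 - 3 / 2 * ε := by
      rw [hε]; ring
    rw [hexp]
    have hβ0 : 0 ≤ 3 / 4 - 3 / 2 * ε := by rw [hε]; linarith
    calc N ^ (3 / 4 - 3 / 2 * ε) ≤ (81 * (k : ℝ) ^ 2) ^ (3 / 4 - 3 / 2 * ε) :=
          Real.rpow_le_rpow hN0.le h5 hβ0
      _ = 81 ^ (3 / 4 - 3 / 2 * ε) * ((k : ℝ) ^ 2) ^ (3 / 4 - 3 / 2 * ε) :=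
          Real.mul_rpow (by norm_num) (by positivity)
      _ ≤ 81 * ((k : ℝ) ^ (3 / 2 : ℝ) / (k : ℝ) ^ (3 * ε)) := by
          apply mul_le_mul _ (le_of_eq _) (by positivity) (by norm_num)
          · calc (81 : ℝ) ^ (3 / 4 - 3 / 2 * ε) ≤ 81 ^ (1 : ℝ) :=
                Real.rpow_le_rpow_of_exponent_le (by norm_num) (by linarith)
              _ = 81 := Real.rpow_one _
          · rw [← Real.rpow_sub hk0, ← Real.rpow_natCast, ← Real.rpow_mul hk0.le]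
            congr 1
            push_cast
            ring
  have hs : (k : ℝ) * Real.sqrt k = (k : ℝ) ^ (3 / 2 : ℝ) := by
    rw [Real.sqrt_eq_rpow]
    nth_rewrite 1 [← Real.rpow_one (k : ℝ)]
    rw [← Real.rpow_add hk0]
    norm_num
  have hs2 : 22 * (k : ℝ) ≤ (k : ℝ) ^ (3 / 2 : ℝ) := by
    rw [← hs, mul_comm]
    apply mul_le_mul_of_nonneg_left _ hk0.le
    apply Real.le_sqrt_of_sq_le
    linarith
  have h8 : 0 ≤ (N ^ (3 / 2 : ℝ)) ^ p * N ^ (q - p + 1 / 2) * (N ^ (3 / 2 : ℝ)) ^ ε := by positivity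
  have h7 : (k : ℝ) * (Real.sqrt k - 11) ≤
      |K| * (81 * ((k : ℝ) ^ (3 / 2 : ℝ) / (k : ℝ) ^ (3 * ε))) := by
    refine le_trans hlow (le_trans hmain ?_)
    calc _ = K * ((N ^ (3 / 2 : ℝ)) ^ p * N ^ (q - p + 1 / 2) * (N ^ (3 / 2 : ℝ)) ^ ε) := by ring
      _ ≤ |K| * ((N ^ (3 / 2 : ℝ)) ^ p * N ^ (q - p + 1 / 2) * (N ^ (3 / 2 : ℝ)) ^ ε) :=
          mul_le_mul_of_nonneg_right (le_abs_self K) h8
      _ ≤ _ := mul_le_mul_of_nonneg_left hb hKabs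
  have h9 : (k : ℝ) * (Real.sqrt k - 11) = (k : ℝ) ^ (3 / 2 : ℝ) - 11 * k := by
    rw [← hs]; ring
  rw [h9] at h7
  have h10 : 0 < (k : ℝ) ^ (3 / 2 : ℝ) := Real.rpow_pos_of_pos hk0 _
  have h11 : 0 < (k : ℝ) ^ (3 * ε) := Real.rpow_pos_of_pos hk0 _
  have h12 : (k : ℝ) ^ (3 / 2 : ℝ) / 2 ≤ |K| * (81 * ((k : ℝ) ^ (3 / 2 : ℝ) / (k : ℝ) ^ (3 * ε))) := by
    linarith
  have h13 : |K| * (81 * ((k : ℝ) ^ (3 / 2 : ℝ) / (k : ℝ) ^ (3 * ε))) <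
      (k : ℝ) ^ (3 / 2 : ℝ) / 2 := by
    rw [show |K| * (81 * ((k : ℝ) ^ (3 / 2 : ℝ) / (k : ℝ) ^ (3 * ε))) =
      (162 * |K|) / (k : ℝ) ^ (3 * ε) * ((k : ℝ) ^ (3 / 2 : ℝ) / 2) by field_simp; ring]
    have h14 : (162 * |K|) / (k : ℝ) ^ (3 * ε) < 1 := by
      rw [div_lt_one h11]
      exact hk1
    calc _ < 1 * ((k : ℝ) ^ (3 / 2 : ℝ) / 2) := mul_lt_mul_of_pos_right h14 (by positivity)
      _ = _ := one_mul _
  linarith

end Pool.Agent.Results.MP_493793_nt.NecessaryCondition
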